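import Pool.Agent.Helper36_PP.StmtsCY

/-!
# Squad PP, part CY: `V^P / (∑ P) V` is simple and determines `V`
-/

open scoped BigOperators

noncomputable section

namespace Pool.Agent.PP.CY66

open Pool.Agent.PP Pool.Agent.Helper51_AWC Pool.Agent.Helper79_WRA

variable {F : Type} [Field F] {G : Type} [Group G]

theorem mrep_apply {n : ℕ} (σ : G →* Matrix (Fin n) (Fin n) F) (g : G) (v : Fin n → F) :
    mrep σ g v = (σ g).mulVec v := rfl

/-- traces act as zero on the fixed points modulo norms -/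
theorem trP_mem {V V' : Type} [AddCommGroup V] [Module F V] [AddCommGroup V'] [Module F V']
    [Finite G] (ρ : Representation F G V) (ρ' : Representation F G V') (P : Subgroup G)
    (φ : V →ₗ[F] V') {v : V} (hv : v ∈ fixV ρ P) : trP ρ ρ' P φ v ∈ nrmV ρ' P := by
  have := Fintype.ofFinite P
  refine ⟨φ v, ?_⟩
  unfold trP
  rw [finsum_eq_sum_of_fintype, finsum_eq_sum_of_fintype, LinearMap.sum_apply,
    LinearMap.sum_apply]
  refine Finset.sum_congr rfl fun p _ => ?_
  rw [LinearMap.comp_apply, LinearMap.comp_apply, hv _ (inv_mem p.2)]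

/-- every vector is the image of a given nonzero vector -/
theorem exists_mulVec {n : ℕ} {v : Fin n → F} (hv : v ≠ 0) {m : ℕ} (w : Fin m → F) :
    ∃ A : Matrix (Fin m) (Fin n) F, A.mulVec v = w := by
  obtain ⟨i, hi⟩ : ∃ i, v i ≠ 0 := by
    by_contra hcon
    push Not at hcon
    exact hv (funext hcon)
  refine ⟨Matrix.vecMulVec w (Pi.single i (v i)⁻¹), ?_⟩
  ext j
  simp [Matrix.mulVec, dotProduct, Matrix.vecMulVec_apply, Pi.single_apply, hi]

/-- Schur's lemma for two representations -/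
theorem schur_two {n n' : ℕ} {σ : G →* Matrix (Fin n) (Fin n) F}
    {σ' : G →* Matrix (Fin n') (Fin n') F} (hσ : IsIrr σ) (hσ' : IsIrr σ')
    (f : (Fin n → F) →ₗ[F] (Fin n' → F)) (hf : ∀ g v, f ((σ g).mulVec v) = (σ' g).mulVec (f v))
    (hne : f ≠ 0) : tr σ = tr σ' := by
  have h1 : ∀ v, f v = 0 → ∀ A : Matrix (Fin n) (Fin n) F, f (A.mulVec v) = 0 := by
    intro v hv A
    have hA : A ∈ Submodule.span F (Set.range σ) := by rw [hσ.2]; trivial
    induction hA using Submodule.span_induction with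
    | mem x hx =>
      obtain ⟨g, rfl⟩ := hx
      rw [hf, hv, Matrix.mulVec_zero]
    | zero => rw [Matrix.zero_mulVec, map_zero]
    | add x y _ _ hx hy => rw [Matrix.add_mulVec, map_add, hx, hy, add_zero]
    | smul a x _ hx => rw [Matrix.smul_mulVec, map_smul, hx, smul_zero]
  have hinj : Function.Injective f := by
    rw [injective_iff_map_eq_zero]
    intro v hv
    by_contra hv0
    refine hne (LinearMap.ext fun w => ?_)
    obtain ⟨A, rfl⟩ := exists_mulVec hv0 w
    exact h1 v hv A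
  have h2 : ∀ v, ∀ A : Matrix (Fin n') (Fin n') F, A.mulVec (f v) ∈ LinearMap.range f := by
    intro v A
    have hA : A ∈ Submodule.span F (Set.range σ') := by rw [hσ'.2]; trivial
    induction hA using Submodule.span_induction with
    | mem x hx =>
      obtain ⟨g, rfl⟩ := hx
      exact ⟨_, hf g v⟩
    | zero => rw [Matrix.zero_mulVec]; exact zero_mem _
    | add x y _ _ hx hy => rw [Matrix.add_mulVec]; exact add_mem hx hy
    | smul a x _ hx => rw [Matrix.smul_mulVec]; exact Submodule.smul_mem _ _ hx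
  have hsurj : Function.Surjective f := by
    obtain ⟨v, hv⟩ : ∃ v, f v ≠ 0 := by
      by_contra hcon
      push Not at hcon
      exact hne (LinearMap.ext hcon)
    intro w
    obtain ⟨A, rfl⟩ := exists_mulVec hv w
    exact h2 v A
  funext g
  have h3 : Matrix.toLin' (σ' g) =
      (LinearEquiv.ofBijective f ⟨hinj, hsurj⟩).conj (Matrix.toLin' (σ g)) := by
    refine LinearMap.ext fun w => ?_
    obtain ⟨v, rfl⟩ := hsurj w
    rw [LinearEquiv.conj_apply, LinearMap.comp_apply, LinearMap.comp_apply]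
    have h4 : (LinearEquiv.ofBijective f ⟨hinj, hsurj⟩).symm (f v) = v :=
      (LinearEquiv.ofBijective f ⟨hinj, hsurj⟩).symm_apply_apply v
    simp only [LinearEquiv.coe_coe, h4, Matrix.toLin'_apply, LinearEquiv.ofBijective_apply]
    exact (hf g v).symm
  have h5 := congrArg (LinearMap.trace F (Fin n' → F)) h3
  rw [LinearMap.trace_conj', Matrix.trace_toLin'_eq, Matrix.trace_toLin'_eq] at h5
  exact h5.symm

/-- Schur's lemma -/
theorem schur_one {n : ℕ} {σ : G →* Matrix (Fin n) (Fin n) F} (hσ : IsIrr σ)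
    (f : (Fin n → F) →ₗ[F] (Fin n → F)) (hf : ∀ g v, f ((σ g).mulVec v) = (σ g).mulVec (f v)) :
    ∃ c : F, ∀ v, f v = c • v := by
  have h1 : ∀ A : Matrix (Fin n) (Fin n) F, Commute A (LinearMap.toMatrix' f) := by
    intro A
    have hA : A ∈ Submodule.span F (Set.range σ) := by rw [hσ.2]; trivial
    induction hA using Submodule.span_induction with
    | mem x hx =>
      obtain ⟨g, rfl⟩ := hx
      show σ g * LinearMap.toMatrix' f = LinearMap.toMatrix' f * σ g
      have h2 : (Matrix.toLin' (σ g)) ∘ₗ f = f ∘ₗ (Matrix.toLin' (σ g)) := by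
        refine LinearMap.ext fun v => ?_
        rw [LinearMap.comp_apply, LinearMap.comp_apply, Matrix.toLin'_apply, Matrix.toLin'_apply,
          hf]
      have h3 := congrArg LinearMap.toMatrix' h2
      rwa [LinearMap.toMatrix'_comp, LinearMap.toMatrix'_comp, LinearMap.toMatrix'_toLin'] at h3
    | zero => exact Commute.zero_left _
    | add x y _ _ hx hy => exact hx.add_left hy
    | smul a x _ hx => exact hx.smul_left a
  obtain ⟨w, hw⟩ := Matrix.mem_range_scalar_of_commute_single (M := LinearMap.toMatrix' f)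
    (fun i j _ => h1 (Matrix.single i j 1))
  refine ⟨w, fun v => ?_⟩
  rw [← Matrix.toLin'_toMatrix' f, ← hw, Matrix.toLin'_apply, Matrix.scalar_apply,
    ← Matrix.smul_one_eq_diagonal, Matrix.smul_mulVec, Matrix.one_mulVec]

/-- the image of an embedding consists of fixed points of `P` -/
theorem emb_fix (hnls : NlsStmt) {ℓ : ℕ} (hF : GoodF ℓ F) [Finite G] {P N : Subgroup G}
    (hP : IsPGroup ℓ P) (hPN : P ≤ N) (hN : N ≤ Subgroup.normalizer (P : Set G)) {m : ℕ}
    {κ : N →* Matrix (Fin m) (Fin m) F} (hκ : IsIrr κ) {V : Type} [AddCommGroup V] [Module F V]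
    {ρ : Representation F G V} {ι : (Fin m → F) →ₗ[F] V} (h : EmbN P N κ ρ ι) (w : Fin m → F) :
    ι w ∈ fixV ρ P := by
  intro p hp
  have h1 : (P.subgroupOf N).Normal := by
    constructor
    intro x hx y
    rw [Subgroup.mem_subgroupOf] at hx ⊢
    exact (Subgroup.mem_normalizer_iff.1 (hN y.2) _).1 hx
  have h2 := (hnls ℓ F hF N (P.subgroupOf N) h1 (hP.comap_of_injective _ Subtype.val_injective) m κ
    hκ).1 ⟨p, hPN hp⟩ (Subgroup.mem_subgroupOf.2 hp)
  have h3 := h.int ⟨p, hPN hp⟩ w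
  rw [h2, Matrix.one_mulVec] at h3
  exact h3.symm

/-- the homomorphism for `G` -/
theorem key (hmac : MacStmt) (hnls : NlsStmt) {ℓ : ℕ} [Fact ℓ.Prime] (hF : GoodF ℓ F) [Finite G]
    {P : Subgroup G} (hT : TiS ℓ P) {n n' m : ℕ} {σ : G →* Matrix (Fin n) (Fin n) F}
    {σ' : G →* Matrix (Fin n') (Fin n') F}
    {κ : Subgroup.normalizer (P : Set G) →* Matrix (Fin m) (Fin m) F} (hκ : IsIrr κ)
    {ι : (Fin m → F) →ₗ[F] (Fin n → F)} {ι' : (Fin m → F) →ₗ[F] (Fin n' → F)}
    (hι : EmbN P (Subgroup.normalizer (P : Set G)) κ (mrep σ) ι)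
    (hι' : EmbN P (Subgroup.normalizer (P : Set G)) κ (mrep σ') ι')
    (g : (Fin n → F) →ₗ[F] (Fin n' → F))
    (hg : HomOn (Subgroup.normalizer (P : Set G)) (mrep σ) (mrep σ') g)
    (hgι : ∀ w, g (ι w) = ι' w) : ∃ f : (Fin n → F) →ₗ[F] (Fin n' → F),
      (∀ x v, f ((σ x).mulVec v) = (σ' x).mulVec (f v)) ∧ f ≠ 0 ∧
      ∀ v ∈ fixV (mrep σ) P, f v - g v ∈ nrmV (mrep σ') P := by
  obtain ⟨φ, hφ⟩ := hmac ℓ F G P hT (Fin n → F) (Fin n' → F) (mrep σ) (mrep σ') g hg
  refine ⟨_, fun x v => hφ x trivial v, ?_, ?_⟩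
  · intro h0
    obtain ⟨w, hw⟩ := hι'.nt
    have h1 := emb_fix hnls hF hT.pgrp Subgroup.le_normalizer le_rfl hκ hι w
    have h2 := trP_mem (mrep σ) (mrep σ') P φ h1
    have h3 : (g + trP (mrep σ) (mrep σ') P φ) (ι w) = 0 := by rw [h0, LinearMap.zero_apply]
    rw [LinearMap.add_apply, hgι] at h3
    rw [eq_neg_of_add_eq_zero_left h3] at hw
    exact hw (neg_mem h2)
  · intro v hv
    rw [LinearMap.add_apply, add_sub_cancel_left]
    exact trP_mem (mrep σ) (mrep σ') P φ hv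

/-- INJ -/
theorem inj (hmac : MacStmt) (hspl : SplStmt) (hnls : NlsStmt) : InjStmt := by
  intro ℓ _ F _ hF G _ _ P hT hc n n' σ σ' hσ hσ' m κ ι ι' hκ hι hι'
  have hPN : P ≤ Subgroup.normalizer (P : Set G) := Subgroup.le_normalizer
  have hidx : ¬ ℓ ∣ P.relIndex (Subgroup.normalizer (P : Set G)) := fun hd =>
    hT.sylow (hd.trans (Subgroup.relIndex_dvd_index_of_le hPN))
  rcases hspl ℓ F hF G P (Subgroup.normalizer (P : Set G)) hT.pgrp hc hPN le_rfl hidx
    (Fin n → F) (Fin n' → F) (mrep σ) (mrep σ') m κ ι ι' hκ hι hι' with ⟨g, h1, h2, -⟩ | ⟨g, h1, h2, -⟩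
  · obtain ⟨f, h3, h4, -⟩ := key hmac hnls hF hT hκ hι hι' g h1 h2
    exact schur_two hσ hσ' f h3 h4
  · obtain ⟨f, h3, h4, -⟩ := key hmac hnls hF hT hκ hι' hι g h1 h2
    exact (schur_two hσ' hσ f h3 h4).symm

/-- BRK -/
theorem brk (hmac : MacStmt) (hspl : SplStmt) (hnls : NlsStmt) : BrkStmt := by
  intro ℓ _ F _ hF G _ _ P hT hc n σ hσ m κ ι hκ hι
  have hPN : P ≤ Subgroup.normalizer (P : Set G) := Subgroup.le_normalizer
  have hidx : ¬ ℓ ∣ P.relIndex (Subgroup.normalizer (P : Set G)) := fun hd =>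
    hT.sylow (hd.trans (Subgroup.relIndex_dvd_index_of_le hPN))
  have h0 : ∃ g : (Fin n → F) →ₗ[F] (Fin n → F),
      HomOn (Subgroup.normalizer (P : Set G)) (mrep σ) (mrep σ) g ∧ (∀ w, g (ι w) = ι w) ∧
      ∀ v ∈ fixV (mrep σ) P, g v ∈ LinearMap.range ι := by
    rcases hspl ℓ F hF G P (Subgroup.normalizer (P : Set G)) hT.pgrp hc hPN le_rfl hidx
      (Fin n → F) (Fin n → F) (mrep σ) (mrep σ) m κ ι ι hκ hι hι with h | h
    · exact h
    · exact h
  obtain ⟨g, h1, h2, h3⟩ := h0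
  obtain ⟨f, h4, h5, h6⟩ := key hmac hnls hF hT hκ hι hι g h1 h2
  obtain ⟨c, hc'⟩ := schur_one hσ f h4
  obtain ⟨w, hw⟩ := hι.nt
  have hc1 : c = 1 := by
    have h7 := h6 (ι w) (emb_fix hnls hF hT.pgrp hPN le_rfl hκ hι w)
    rw [hc', h2] at h7
    by_contra hne
    have h8 : c • ι w - ι w = (c - 1) • ι w := by rw [sub_smul, one_smul]
    rw [h8, Submodule.smul_mem_iff _ (sub_ne_zero.2 hne)] at h7
    exact hw h7
  intro v hv
  have h7 := h6 v hv
  rw [hc', hc1, one_smul] at h7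
  rw [show v = g v + (v - g v) by abel]
  exact add_mem (Submodule.mem_sup_left (h3 v hv)) (Submodule.mem_sup_right h7)

end Pool.Agent.PP.CY66
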